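import Mathlib

set_option autoImplicit false

namespace Pool.Agent.Q215.FG

open Function FreeGroup

/-- The shift automorphism of the free group on the integers. -/
def shiftAut : MulAut (FreeGroup ℤ) := freeGroupCongr (Equiv.addRight (1 : ℤ))

theorem shiftAut_zpow (n k : ℤ) : (shiftAut ^ n) (of k) = of (k + n) := by
  induction n using Int.induction_on generalizing k with
  | zero => simp
  | succ n ih =>
    rw [zpow_add_one, MulAut.mul_apply]
    have : shiftAut (of k) = of (k + 1) := by simp [shiftAut]
    rw [this, ih]
    congr 1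
    ring
  | pred n ih =>
    rw [zpow_sub_one, MulAut.mul_apply]
    have : shiftAut⁻¹ (of k) = of (k - 1) := by
      rw [MulAut.inv_apply, MulEquiv.symm_apply_eq]
      simp [shiftAut]
    rw [this, ih]
    congr 1
    ring

/-- The action of the integers by shifts. -/
def shiftHom : Multiplicative ℤ →* MulAut (FreeGroup ℤ) := zpowersHom _ shiftAut

/-- The test homomorphism. -/
def testHom : FreeGroup Bool →* FreeGroup ℤ ⋊[shiftHom] Multiplicative ℤ :=
  lift fun b => if b then SemidirectProduct.inr (Multiplicative.ofAdd 1) else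
    SemidirectProduct.inl (of 0)

/-- The conjugates of one generator by the powers of the other. -/
def conjHom : FreeGroup ℕ →* FreeGroup Bool :=
  lift fun i => of true ^ i * of false * (of true ^ i)⁻¹

theorem testHom_conjHom (i : ℕ) :
    testHom (conjHom (of i)) = SemidirectProduct.inl (of (i : ℤ)) := by
  have h1 : testHom (of true) = SemidirectProduct.inr (Multiplicative.ofAdd 1) := by
    simp [testHom]
  have h2 : testHom (of false) = SemidirectProduct.inl (of 0) := by simp [testHom]
  have h3 : conjHom (of i) = of true ^ i * of false * (of true ^ i)⁻¹ := by simp [conjHom]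
  rw [h3, _root_.map_mul, _root_.map_mul, _root_.map_inv, _root_.map_pow, h1, h2,
    ← _root_.map_pow, ← _root_.map_inv, ← SemidirectProduct.inl_aut]
  congr 1
  have h4 : shiftHom (Multiplicative.ofAdd (1 : ℤ) ^ i) = shiftAut ^ (i : ℤ) := by
    rw [← ofAdd_nsmul]
    simp [shiftHom, zpowersHom_apply]
  rw [h4, shiftAut_zpow, zero_add]

theorem conjHom_injective : Injective conjHom := by
  have h1 : (testHom.comp conjHom) =
      SemidirectProduct.inl.comp (FreeGroup.map (fun i : ℕ => (i : ℤ))) := by
    refine FreeGroup.ext_hom _ _ fun i => ?_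
    rw [MonoidHom.comp_apply, testHom_conjHom, MonoidHom.comp_apply, map.of]
  have h2 : Injective (testHom.comp conjHom) := by
    rw [h1, MonoidHom.coe_comp]
    exact SemidirectProduct.inl_injective.comp (FreeGroup.map_injective Nat.cast_injective)
  rw [MonoidHom.coe_comp] at h2
  exact h2.of_comp

/-- The free group of rank three embeds into the free group of rank two. -/
theorem exists_embedding : ∃ f : FreeGroup (Fin 3) →* FreeGroup Bool, Injective f :=
  ⟨conjHom.comp (FreeGroup.map fun i : Fin 3 => (i : ℕ)), by
    rw [MonoidHom.coe_comp]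
    exact conjHom_injective.comp (FreeGroup.map_injective Fin.val_injective)⟩

section Cosets

universe v w

variable {H : Type v} {Γ : Type w} [Group H] [Group Γ] (i : H →* Γ)

/-- `Γ` is, as a set with an action of `H`, the product of `H` and a set. -/
theorem exists_cosets (hi : Injective i) : ∃ (C : Type w) (_ : Nonempty C) (e : Γ ≃ H × C),
    ∀ h g, e (i h * g) = (h * (e g).1, (e g).2) := by
  let S := QuotientGroup.rightRel i.range
  have hr : ∀ g : Γ, ∃ h : H, i h = g * (Quotient.mk S g).out⁻¹ := by
    intro g
    have h1 : S (Quotient.mk S g).out g := Quotient.exact (Quotient.out_eq (Quotient.mk S g))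
    rw [QuotientGroup.rightRel_apply] at h1
    exact h1
  choose p hp using hr
  have hq : ∀ (h : H) (g : Γ), Quotient.mk S (i h * g) = Quotient.mk S g := by
    intro h g
    refine Quotient.sound ?_
    show S _ _
    rw [QuotientGroup.rightRel_apply]
    have : g * (i h * g)⁻¹ = i h⁻¹ := by simp
    rw [this]
    exact ⟨h⁻¹, rfl⟩
  have hpm : ∀ (h : H) (g : Γ), p (i h * g) = h * p g := by
    intro h g
    apply hi
    rw [hp, hq, _root_.map_mul, hp, mul_assoc]
  refine ⟨Quotient S, ⟨Quotient.mk S 1⟩, ⟨fun g => (p g, Quotient.mk S g),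
    fun x => i x.1 * x.2.out, fun g => ?_, fun x => ?_⟩, fun h g => ?_⟩
  · show i (p g) * (Quotient.mk S g).out = g
    rw [hp]
    group
  · have h1 : Quotient.mk S (i x.1 * x.2.out) = x.2 := by rw [hq, Quotient.out_eq]
    refine Prod.ext ?_ h1
    show p (i x.1 * x.2.out) = x.1
    apply hi
    rw [hp, h1]
    group
  · exact Prod.ext (hpm h g) (hq h g)

theorem exists_product [Countable Γ] (hi : Injective i) : ∃ e : Γ × ℕ ≃ H × ℕ,
    ∀ h g n, e (i h * g, n) = (h * (e (g, n)).1, (e (g, n)).2) := by
  obtain ⟨C, hC, e, he⟩ := exists_cosets i hi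
  have hc : Countable C := by
    have : Injective fun c : C => e.symm (1, c) := fun c d h => (Prod.mk.inj (e.symm.injective h)).2
    exact this.countable
  obtain ⟨q⟩ : Nonempty (C × ℕ ≃ ℕ) := nonempty_equiv_of_countable
  refine ⟨((e.prodCongr (Equiv.refl ℕ)).trans (Equiv.prodAssoc H C ℕ)).trans
    ((Equiv.refl H).prodCongr q), fun h g n => ?_⟩
  simp [he]

end Cosets

end Pool.Agent.Q215.FG
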