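import Pool.Agent.Q215.FG.Words
import Pool.Agent.Q215.FG.Emb

set_option autoImplicit false

namespace Pool.Agent.Q215.FG

open Function FreeGroup

universe w

section

variable {Γ : Type w} [Group Γ] (E : Γ × ℕ ≃ ℕ)

/-- The action of `Γ` on the natural numbers obtained from the left multiplication on `Γ × ℕ`. -/
def actHom : Γ →* Equiv.Perm ℕ where
  toFun γ := (E.symm.trans ((Equiv.mulLeft γ).prodCongr (Equiv.refl ℕ))).trans E
  map_one' := by
    refine Equiv.ext fun t => ?_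
    simp
  map_mul' γ δ := by
    refine Equiv.ext fun t => ?_
    simp only [Equiv.trans_apply, Equiv.Perm.mul_apply, Equiv.symm_apply_apply, Equiv.prodCongr_apply,
      Equiv.coe_mulLeft, Prod.map, mul_assoc]
    rfl

theorem actHom_apply (γ x : Γ) (n : ℕ) : actHom E γ (E (x, n)) = E (γ * x, n) := by
  simp [actHom]

theorem actHom_free {γ : Γ} (hγ : γ ≠ 1) (t : ℕ) : actHom E γ t ≠ t := by
  obtain ⟨⟨x, n⟩, rfl⟩ := E.surjective t
  rw [actHom_apply]
  intro h
  have h1 := (Prod.mk.inj (E.injective h)).1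
  exact hγ (mul_eq_right.1 h1)

end

theorem exists_action {Γ : Type w} [Group Γ] [Countable Γ] (f : FreeGroup Bool →* Γ)
    (hf : Injective f) (A : Fin 3 → Equiv.Perm ℕ) :
    ∃ (ρ : Γ →* Equiv.Perm ℕ) (k : ℕ → Option ℕ) (g : Fin 3 → Γ),
      (∀ γ ≠ 1, ∀ n, ρ γ n ≠ n) ∧
      (∀ i ≠ 2, ∀ t, k (ρ (g i) t) = (k t).map (A i)) ∧
      (∀ t, t % 2 = 1 → k t = some t) ∧ (∀ t m, k t = some m → m ≤ t) ∧
      (∀ t, t % 2 = 0 → k (ρ (g 2)⁻¹ t) = some t) ∧
      ∀ t m, k (ρ (g 2)⁻¹ t) = some m → m ≤ t := by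
  obtain ⟨f3, hf3⟩ := exists_embedding
  obtain ⟨e, he⟩ := exists_product (f.comp f3) (by rw [MonoidHom.coe_comp]; exact hf.comp hf3)
  obtain ⟨ε, k, h1, h2, h3, h4, h5⟩ := exists_frames A
  have he' : ∀ (h : FreeGroup (Fin 3)) (x : Γ × ℕ),
      e (f (f3 h) * x.1, x.2) = (h * (e x).1, (e x).2) := fun h x => he h x.1 x.2
  have hact : ∀ (h : FreeGroup (Fin 3)) (t : ℕ),
      ε.symm (actHom (e.trans ε) (f (f3 h)) t) = (h * (ε.symm t).1, (ε.symm t).2) := by
    intro h t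
    obtain ⟨x, rfl⟩ := (e.trans ε).surjective t
    rw [show (e.trans ε) x = (e.trans ε) (x.1, x.2) from rfl, actHom_apply]
    simp only [Equiv.trans_apply, Equiv.symm_apply_apply]
    exact he' h x
  have hinv : ∀ t, ε.symm (actHom (e.trans ε) (f (f3 (of 2)))⁻¹ t) =
      ((of 2)⁻¹ * (ε.symm t).1, (ε.symm t).2) := by
    intro t
    rw [← hact, _root_.map_inv f3, _root_.map_inv f]
  refine ⟨actHom (e.trans ε), fun t => k (ε.symm t), fun i => f (f3 (of i)),
    fun γ hγ n => actHom_free _ hγ n, fun i hi t => ?_, fun t ht => ?_, fun t m hm => ?_,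
    fun t ht => ?_, fun t m hm => ?_⟩
  · show k (ε.symm _) = _
    rw [hact, h1 i hi]
  · have := h2 (ε.symm t) (by rwa [ε.apply_symm_apply])
    rwa [ε.apply_symm_apply] at this
  · have := h3 (ε.symm t) m hm
    rwa [ε.apply_symm_apply] at this
  · show k (ε.symm _) = _
    rw [hinv]
    have := h4 (ε.symm t) (by rwa [ε.apply_symm_apply])
    rwa [ε.apply_symm_apply] at this
  · have hm : k (ε.symm (actHom (e.trans ε) (f (f3 (of 2)))⁻¹ t)) = some m := hm
    rw [hinv] at hm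
    have := h5 (ε.symm t) m hm
    rwa [ε.apply_symm_apply] at this

end Pool.Agent.Q215.FG
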