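import Pool.Agent.H685R3.KDefs

/-!
# Determinacy of the sets invariant under a group: definitions

The games, `WinsI`, `WinsII` and `TuringInvariant` are those of the starting files.
-/

set_option autoImplicit false

namespace Pool.Agent.Q215.FG

open Pool.Agent.H685R3

/-- The group contains no free subsemigroup of rank two: any two elements `a`, `b` have two
different words (products of `a` and `b`, no inverses) with the same value. -/
def NoFreeSemigroup (Γ : Type*) [Group Γ] : Prop :=
  ∀ a b : Γ, ¬ Function.Injective (FreeMonoid.lift fun c : Bool => if c then a else b)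

/-- The group contains a free group of rank two. -/
def ContainsFreeGroup (Γ : Type*) [Group Γ] : Prop :=
  ∃ f : FreeGroup Bool →* Γ, Function.Injective f

variable {Γ : Type*} [Group Γ]

/-- Every element of `Γ` acts on the Cantor space by rearranging the positions and flipping some
bits. -/
def CoordinateAction (σ : Γ →* Equiv.Perm (ℕ → Bool)) : Prop :=
  ∀ g, ∃ (h : Equiv.Perm ℕ) (r : ℕ → Bool), ∀ x q, σ g x q = xor (x (h q)) (r q)

/-- The action on the Cantor space which belongs to an action on the positions: `g` sends `x` to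
the sequence with the bit `x q` at the position `ρ g q`. -/
def rearrange (ρ : Γ →* Equiv.Perm ℕ) : Γ →* Equiv.Perm (ℕ → Bool) where
  toFun g := (ρ g).arrowCongr (Equiv.refl Bool)
  map_one' := by
    rw [map_one]
    rfl
  map_mul' g g' := by
    rw [map_mul]
    rfl

/-- The set is closed under the action. -/
def Invariant (σ : Γ →* Equiv.Perm (ℕ → Bool)) (A : Set (ℕ → Bool)) : Prop :=
  ∀ g x, σ g x ∈ A ↔ x ∈ A

/-- No element except `1` fixes a position. -/
def Free (ρ : Γ →* Equiv.Perm ℕ) : Prop := ∀ g ≠ 1, ∀ n, ρ g n ≠ n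

/-- **Determinacy of the invariant sets implies the axiom of determinacy**, game by game: there are
invariant Borel sets `W`, `D` and an invariant Borel map `F` such that, for every payoff set `A`,
each of the players has a winning strategy for `A` if and only if he has one for the invariant
payoff set `W ∪ (D ∩ F⁻¹ A)`. -/
def GivesAD (σ : Γ →* Equiv.Perm (ℕ → Bool)) : Prop :=
  ∃ (W D : Set (ℕ → Bool)) (F : (ℕ → Bool) → ℕ → Bool),
    MeasurableSet W ∧ MeasurableSet D ∧ Measurable F ∧ Invariant σ W ∧ Invariant σ D ∧
    (∀ g x, F (σ g x) = F x) ∧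
    ∀ A : Set (ℕ → Bool), (WinsI (W ∪ {x | x ∈ D ∧ F x ∈ A}) ↔ WinsI A) ∧
      (WinsII (W ∪ {x | x ∈ D ∧ F x ∈ A}) ↔ WinsII A)

/-- **Determinacy of the invariant sets is equivalent to Turing determinacy**, game by game: there
is a Borel map `Q` which pulls back invariant sets to Turing invariant sets with the same winner,
and a continuous map `R` which pulls back Turing invariant sets to invariant sets with the same
winner. -/
def EquivalentToTD (σ : Γ →* Equiv.Perm (ℕ → Bool)) : Prop :=
  (∃ Q : (ℕ → Bool) → ℕ → Bool, Measurable Q ∧ ∀ A : Set (ℕ → Bool), Invariant σ A →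
    TuringInvariant {u | Q u ∈ A} ∧ (WinsI {u | Q u ∈ A} ↔ WinsI A) ∧
      (WinsII {u | Q u ∈ A} ↔ WinsII A)) ∧
  ∃ R : (ℕ → Bool) → ℕ → Bool, Continuous R ∧ ∀ A : Set (ℕ → Bool), TuringInvariant A →
    Invariant σ {x | R x ∈ A} ∧ (WinsI {x | R x ∈ A} ↔ WinsI A) ∧
      (WinsII {x | R x ∈ A} ↔ WinsII A)

end Pool.Agent.Q215.FG
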