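import Pool.Agent.H685R3.Game

set_option autoImplicit false

namespace Pool.Agent.Q215.FG

open Pool.Agent.H685R3

/-- The play in which the bit at `t` is a copy of the bit of `v` at `κ t` (`false` if there is
none). -/
def copy (κ : ℕ → Option ℕ) (v : ℕ → Bool) (t : ℕ) : Bool := (κ t).elim false v

theorem hist_getD' (x : ℕ → Bool) (n i : ℕ) (h : i < n) : (hist x n).getD i false = x i := by
  simp [hist, h]

theorem length_hist' (x : ℕ → Bool) (n : ℕ) : (hist x n).length = n := by simp [hist]

theorem hist_congr {x y : ℕ → Bool} {n : ℕ} (h : ∀ i < n, x i = y i) : hist x n = hist y n := by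
  refine List.map_congr_left fun i hi => h i (List.mem_range.1 hi)

/-- The play in which player `β` follows the strategy `σ` and the other player makes the moves
of `x`. -/
def simu (β : ℕ) (σ : List Bool → Bool) (x : ℕ → Bool) : ℕ → List Bool
  | 0 => []
  | n + 1 => simu β σ x n ++ [if n % 2 = β then σ (simu β σ x n) else x n]

/-- The bits of this play. -/
def sb (β : ℕ) (σ : List Bool → Bool) (x : ℕ → Bool) (n : ℕ) : Bool :=
  if n % 2 = β then σ (simu β σ x n) else x n

theorem simu_eq (β : ℕ) (σ : List Bool → Bool) (x : ℕ → Bool) (n : ℕ) :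
    simu β σ x n = hist (sb β σ x) n := by
  induction n with
  | zero => rfl
  | succ n ih =>
    rw [simu, hist, List.range_succ, List.map_append, ← hist, ← ih]
    rfl

theorem simu_congr {β : ℕ} {σ : List Bool → Bool} {x y : ℕ → Bool} {n : ℕ}
    (h : ∀ i < n, i % 2 ≠ β → x i = y i) : simu β σ x n = simu β σ y n := by
  induction n with
  | zero => rfl
  | succ n ih =>
    rw [simu, simu, ih fun i hi => h i (by omega)]
    congr 2
    split_ifs with h1
    · rfl
    · exact h n (by omega) h1

theorem sb_congr {β : ℕ} {σ : List Bool → Bool} {x y : ℕ → Bool} {n : ℕ}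
    (h : ∀ i ≤ n, i % 2 ≠ β → x i = y i) : sb β σ x n = sb β σ y n := by
  rw [sb, sb, simu_congr fun i hi => h i (by omega)]
  split_ifs with h1
  · rfl
  · exact h n (by omega) h1

/-- Player `β` can simulate. -/
theorem wins_of_copy {β : ℕ} (hβ : β < 2) {κ : ℕ → Option ℕ} {A : Set (ℕ → Bool)}
    (h1 : ∀ t, t % 2 ≠ β → κ t = some t) (h2 : ∀ t m, κ t = some m → m ≤ t)
    (h : Wins β {v | copy κ v ∈ A}) : Wins β A := by
  obtain ⟨σ, hσ⟩ := h
  refine ⟨fun L => copy κ (sb β σ fun i => L.getD i false) L.length, fun x hx => ?_⟩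
  have h3 : sb β σ x ∈ {v | copy κ v ∈ A} := by
    refine hσ _ fun n => ?_
    rw [← simu_eq]
    conv_lhs => rw [sb]
    rw [if_pos (by omega)]
  have h4 : copy κ (sb β σ x) = x := by
    funext t
    by_cases ht : t % 2 = β
    · obtain ⟨n, rfl⟩ : ∃ n, t = 2 * n + β := ⟨t / 2, by omega⟩
      rw [hx n]
      simp only [length_hist']
      rw [copy, copy]
      cases hm : κ (2 * n + β) with
      | none => rfl
      | some m =>
        have hmt := h2 _ _ hm
        refine sb_congr fun i hi hib => ?_
        rw [hist_getD']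
        have : i ≠ 2 * n + β := fun h => hib (by omega)
        omega
    · rw [copy, h1 t ht]
      show sb β σ x t = x t
      rw [sb, if_neg ht]
  rw [← h4]
  exact h3

/-- The other player can use his strategy. -/
theorem wins_copy {β : ℕ} (hβ : β < 2) {κ : ℕ → Option ℕ} {A : Set (ℕ → Bool)}
    (h1 : ∀ t, t % 2 = β → κ t = some t) (h2 : ∀ t m, κ t = some m → m ≤ t)
    (h : Wins β A) : Wins β {v | copy κ v ∈ A} := by
  obtain ⟨τ, hτ⟩ := h
  refine ⟨fun L => τ (hist (copy κ fun i => L.getD i false) L.length), fun v hv => ?_⟩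
  refine hτ _ fun n => ?_
  have h3 : copy κ v (2 * n + β) = v (2 * n + β) := by
    rw [copy, h1 _ (by omega)]
    rfl
  rw [h3, hv n]
  simp only [length_hist']
  congr 1
  refine (hist_congr fun i hi => ?_).symm
  symm
  rw [copy, copy]
  cases hm : κ i with
  | none => rfl
  | some m =>
    have hmt := h2 _ _ hm
    exact hist_getD' _ _ _ (by omega)

end Pool.Agent.Q215.FG
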