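import Pool.Agent.Y588.TC.Defs

set_option autoImplicit false

namespace Pool.Agent.Q215.FG

open Pool.Agent.H685R3 Pool.Agent.Y588.TC Encodable
open Nat.Partrec (Code)

theorem measurableSet_hist (k : ℕ) (M : List Bool) : MeasurableSet {u : ℕ → Bool | hist u k = M} := by
  have : {u : ℕ → Bool | hist u k = M} =
      {u | M.length = k ∧ ∀ i < k, u i = M.getD i false} := by
    ext u
    constructor
    · rintro rfl
      refine ⟨by simp [hist], fun i hi => ?_⟩
      simp [hist, hi]
    · rintro ⟨h1, h2⟩
      refine List.ext_getElem (by simp [hist, h1]) fun i h3 h4 => ?_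
      have h5 : i < k := by simpa [hist] using h3
      have h6 := h2 i h5
      rw [List.getD_eq_getElem _ _ h4] at h6
      simp [hist, h6]
  rw [this]
  refine (MeasurableSet.const _).inter ?_
  have h1 : {u : ℕ → Bool | ∀ i < k, u i = M.getD i false} =
      ⋂ i, ⋂ (_ : i < k), {u | u i = M.getD i false} := by
    ext u
    simp
  show MeasurableSet {u : ℕ → Bool | ∀ i < k, u i = M.getD i false}
  rw [h1]
  exact MeasurableSet.iInter fun i => MeasurableSet.iInter fun _ =>
    measurableSet_eq_fun (measurable_pi_apply i) measurable_const

/-- The next bit, if the earlier bits are `L`. -/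
def Nxt (n : ℕ) (L : List Bool) (u : ℕ → Bool) : Prop :=
  ∃ k, ((Denumerable.ofNat Code (ones n)).eval (encode (n, L, hist u k))).Dom

theorem measurableSet_nxt (n : ℕ) (L : List Bool) : MeasurableSet {u | Nxt n L u} := by
  have : {u | Nxt n L u} = ⋃ k : ℕ, ⋃ M : List Bool, {u | hist u k = M ∧
      ((Denumerable.ofNat Code (ones n)).eval (encode (n, L, M))).Dom} := by
    ext u
    simp only [Nxt, Set.mem_ofPred_eq, Set.mem_iUnion]
    constructor
    · rintro ⟨k, hk⟩
      exact ⟨k, _, rfl, hk⟩
    · rintro ⟨k, M, rfl, hk⟩
      exact ⟨k, hk⟩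
  rw [this]
  refine MeasurableSet.iUnion fun k => MeasurableSet.iUnion fun M => ?_
  exact (measurableSet_hist k M).inter (MeasurableSet.const _)

theorem measurableSet_answers (n : ℕ) (L : List Bool) : MeasurableSet {u | answers u n = L} := by
  induction n generalizing L with
  | zero =>
    have : {u : ℕ → Bool | answers u 0 = L} = {_u | [] = L} := rfl
    rw [this]
    exact MeasurableSet.const _
  | succ n ih =>
    have hstep : ∀ u, answers u (n + 1) =
        answers u n ++ [open Classical in decide (Nxt n (answers u n) u)] := fun u => rfl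
    have : {u | answers u (n + 1) = L} = ⋃ M : List Bool, ⋃ b : Bool,
        {u | (answers u n = M ∧ (Nxt n M u ↔ b = true)) ∧ M ++ [b] = L} := by
      ext u
      simp only [Set.mem_ofPred_eq, Set.mem_iUnion]
      constructor
      · intro h
        rw [hstep] at h
        classical
        refine ⟨_, _, ⟨rfl, ?_⟩, h⟩
        simp
      · rintro ⟨M, b, ⟨rfl, h2⟩, rfl⟩
        rw [hstep]
        congr 2
        classical
        by_cases h3 : Nxt n (answers u n) u
        · rw [h2.1 h3]
          simpa using h3
        · have h4 : b ≠ true := fun h => h3 (h2.2 h)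
          rw [eq_false_of_ne_true h4]
          simpa using h3
    rw [this]
    refine MeasurableSet.iUnion fun M => MeasurableSet.iUnion fun b => ?_
    refine ((ih M).inter ?_).inter (MeasurableSet.const _)
    cases b
    · have : {u | Nxt n M u ↔ false = true} = {u | Nxt n M u}ᶜ := by
        ext u
        simp
      show MeasurableSet {u | Nxt n M u ↔ false = true}
      rw [this]
      exact (measurableSet_nxt n M).compl
    · have : {u | Nxt n M u ↔ true = true} = {u | Nxt n M u} := by
        ext u
        simp
      show MeasurableSet {u | Nxt n M u ↔ true = true}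
      rw [this]
      exact measurableSet_nxt n M

theorem measurable_adaptiveJump : Measurable adaptiveJump := by
  refine measurable_pi_iff.2 fun n => measurable_to_bool ?_
  have : (fun u => adaptiveJump u n) ⁻¹' {true} = ⋃ L : List Bool,
      {u | answers u n = L ∧ Nxt n L u} := by
    ext u
    simp only [Set.mem_preimage, Set.mem_singleton_iff, Set.mem_iUnion, Set.mem_ofPred_eq,
      adaptiveJump, decide_eq_true_eq]
    constructor
    · intro h
      exact ⟨_, rfl, h⟩
    · rintro ⟨L, rfl, h⟩
      exact h
  rw [this]
  exact MeasurableSet.iUnion fun L => (measurableSet_answers n L).inter (measurableSet_nxt n L)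

end Pool.Agent.Q215.FG
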