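import Pool.Agent.H685R3.HMain

set_option autoImplicit false

namespace Pool.Agent.Q215.FG

open Pool.Agent.H685R3 Pool.Agent.Helper227

/-- A real which codes a sequence of maps. -/
def codeMaps (f : ℕ → ℕ → ℕ) (n : ℕ) : Bool :=
  decide (f n.unpair.1 n.unpair.2.unpair.1 = n.unpair.2.unpair.2)

theorem codeMaps_pair (f : ℕ → ℕ → ℕ) (i n m : ℕ) :
    codeMaps f (Nat.pair i (Nat.pair n m)) = true ↔ f i n = m := by
  simp [codeMaps]

/-- Rearrangements by the coded maps are computable. -/
theorem tLe_comp (f : ℕ → ℕ → ℕ) (i : ℕ) (x : ℕ → Bool) :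
    TLe (x ∘ f i) (join (codeMaps f) x) := by
  rw [tLe_iff_SI]
  have h1 : SI (join (codeMaps f) x) fun y : ℕ × Bool => ∃ m : ℕ,
      join (codeMaps f) x (2 * Nat.pair i (Nat.pair y.1 m)) = true ∧
      join (codeMaps f) x (2 * m + 1) = y.2 := by
    refine SI.ex (p := fun (y : ℕ × Bool) (m : ℕ) =>
      join (codeMaps f) x (2 * Nat.pair i (Nat.pair y.1 m)) = true ∧
      join (codeMaps f) x (2 * m + 1) = y.2) (SI.and ?_ ?_)
    · exact SI.query.comp (f := fun y : (ℕ × Bool) × ℕ =>
        (2 * Nat.pair i (Nat.pair y.1.1 y.2), true))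
        ((Primrec.nat_mul.comp (Primrec.const 2) (Primrec₂.natPair.comp (Primrec.const i)
          (Primrec₂.natPair.comp (Primrec.fst.comp Primrec.fst) Primrec.snd))).pair
          (Primrec.const true))
    · exact SI.query.comp (f := fun y : (ℕ × Bool) × ℕ => (2 * y.2 + 1, y.1.2))
        ((Primrec.succ.comp (Primrec.nat_mul.comp (Primrec.const 2) Primrec.snd)).pair
          (Primrec.snd.comp Primrec.fst))
  refine h1.of_eq fun y => ?_
  simp only [join_even, join_odd, codeMaps_pair, Function.comp_apply]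
  constructor
  · rintro ⟨m, rfl, h⟩
    exact h
  · intro h
    exact ⟨_, rfl, h⟩

theorem TLe.trans' {x y z : ℕ → Bool} (h : TLe x y) (h' : TLe y z) : TLe x z :=
  TuringReducible.trans h h'

theorem TLe.refl' (x : ℕ → Bool) : TLe x x := TuringReducible.refl _

/-- The map `x ↦ r ⊕ x` turns Turing invariant sets into sets closed under the rearrangements. -/
theorem inv_join {f : ℕ → ℕ → ℕ} {A : Set (ℕ → Bool)} (hA : TuringInvariant A) {i j : ℕ}
    (hij : ∀ n, f i (f j n) = n) (x : ℕ → Bool) :
    join (codeMaps f) (x ∘ f i) ∈ A ↔ join (codeMaps f) x ∈ A := by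
  have h0 : ∀ (k : ℕ) (y : ℕ → Bool),
      TLe (join (codeMaps f) (y ∘ f k)) (join (codeMaps f) y) := fun k y =>
    tLe_join_of (tLe_join _ _) (tLe_comp f k y)
  have h1 := h0 i x
  have h2 : TLe (join (codeMaps f) x) (join (codeMaps f) (x ∘ f i)) := by
    have h3 : (x ∘ f i) ∘ f j = x := by
      funext n
      simp [hij]
    have h4 := h0 j (x ∘ f i)
    rwa [h3] at h4
  exact ⟨fun h => hA _ _ h1 h2 h, fun h => hA _ _ h2 h1 h⟩

theorem wins_join {β : ℕ} (hβ : β < 2) {A : Set (ℕ → Bool)} (hA : TuringInvariant A)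
    (r : ℕ → Bool) : Wins β {x | join r x ∈ A} ↔ Wins β A := by
  have hinv : TuringInvariant {x | join r x ∈ A} := by
    intro x y h h' hx
    refine hA _ _ ?_ ?_ hx
    · exact tLe_join_of (tLe_join _ _) (TLe.trans' h (tLe_join_right _ _))
    · exact tLe_join_of (tLe_join _ _) (TLe.trans' h' (tLe_join_right _ _))
  constructor
  · intro h
    obtain ⟨z, hz⟩ := cone_of_wins hβ hinv h
    refine wins_of_cone hβ (z := join r z) fun u hu => ?_
    have h1 : TLe r u := TLe.trans' (tLe_join r z) hu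
    have h2 : TLe z u := TLe.trans' (tLe_join_right r z) hu
    exact hA _ _ (tLe_join_of h1 (TLe.refl' u)) (tLe_join_right r u) (hz u h2)
  · intro h
    obtain ⟨z, hz⟩ := cone_of_wins hβ hA h
    exact wins_of_cone hβ fun u hu => hz _ (TLe.trans' hu (tLe_join_right r u))

theorem continuous_join (r : ℕ → Bool) : Continuous fun x => join r x := by
  refine continuous_pi fun n => ?_
  unfold join
  split_ifs
  · exact continuous_const
  · exact continuous_apply _

theorem compl_turing {A : Set (ℕ → Bool)} (hA : TuringInvariant A) : TuringInvariant Aᶜ :=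
  fun _ _ h h' hx hy => hx (hA _ _ h' h hy)

end Pool.Agent.Q215.FG
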