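import Pool.Agent.Q215.FG.Semi
import Pool.Agent.Q215.FG.Act
import Pool.Agent.Q215.FG.Game
import Pool.Agent.Q215.FG.Turing
import Pool.Agent.Q215.FG.Meas
import Pool.Agent.Q202.IDet.Circle
import Pool.Agent.Y588.TC.Main

set_option autoImplicit false

namespace Pool.Agent.Q215.FG

open Function Pool.Agent.H685R3 Pool.Agent.Helper227 Pool.Agent.Q202.IDet
open Pool.Agent.Y588.TC (adaptiveJump CircleInvariant quarter third)

universe w

variable {Γ : Type w} [Group Γ]

theorem givesAD_of_nonParadoxical [Countable Γ] {σ : Γ →* Equiv.Perm (ℕ → Bool)}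
    (hσ : CoordinateAction σ) (h : NonParadoxical σ.range) : GivesAD σ := by
  have hc : Countable σ.range := by
    have : Surjective σ.rangeRestrict := σ.rangeRestrict_surjective
    exact this.countable
  obtain ⟨W, D, F, h1, h2, h3, h4, h5⟩ := Pool.Agent.Q202.IDet.main σ.range
    (by rintro _ ⟨g, rfl⟩; exact hσ g) h
  exact ⟨W, D, F, h1, h2, h3, fun g x => (h4 (σ g) ⟨g, rfl⟩ x).1,
    fun g x => (h4 (σ g) ⟨g, rfl⟩ x).2.1, fun g x => (h4 (σ g) ⟨g, rfl⟩ x).2.2, h5⟩

/-- **Part one.** -/
theorem part_one [Countable Γ] (hΓ : NoFreeSemigroup Γ) {σ : Γ →* Equiv.Perm (ℕ → Bool)}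
    (hσ : CoordinateAction σ) : GivesAD σ :=
  givesAD_of_nonParadoxical hσ (nonParadoxical_of_noFree hΓ σ)

theorem rearrange_apply (ρ : Γ →* Equiv.Perm ℕ) (g : Γ) (x : ℕ → Bool) :
    rearrange ρ g x = x ∘ ρ g⁻¹ := by
  funext q
  have : (ρ g⁻¹) q = (ρ g).symm q := by
    rw [map_inv]
    rfl
  rw [comp_apply, this]
  rfl

theorem invariant_iff {ρ : Γ →* Equiv.Perm ℕ} {A : Set (ℕ → Bool)} :
    Invariant (rearrange ρ) A ↔ ∀ g x, x ∘ ρ g ∈ A ↔ x ∈ A := by
  constructor
  · intro h g x
    have := h g⁻¹ x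
    rwa [rearrange_apply, inv_inv] at this
  · intro h g x
    rw [rearrange_apply]
    exact h g⁻¹ x

section PartTwo

variable {A : Set (ℕ → Bool)} {k : ℕ → Option ℕ}

theorem copy_comp {g : ℕ → ℕ} {f : ℕ → ℕ} (h : ∀ t, k (g t) = (k t).map f) (v : ℕ → Bool) :
    copy k (v ∘ f) = copy k v ∘ g := by
  funext t
  rw [copy, comp_apply, copy, h]
  cases k t <;> rfl

theorem copy_comp_right (g : ℕ → ℕ) (v : ℕ → Bool) :
    copy (fun t => k (g t)) v = copy k v ∘ g := rfl

theorem continuous_copy (k : ℕ → Option ℕ) : Continuous (copy k) := by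
  refine continuous_pi fun t => ?_
  unfold copy
  cases k t with
  | none => exact continuous_const
  | some m => exact continuous_apply m

theorem two_frames {ρ : Γ →* Equiv.Perm ℕ} {s : Γ} (hA : ∀ g x, x ∘ ρ g ∈ A ↔ x ∈ A)
    (h2 : ∀ t, t % 2 = 1 → k t = some t) (h3 : ∀ t m, k t = some m → m ≤ t)
    (h4 : ∀ t, t % 2 = 0 → k (ρ s⁻¹ t) = some t) (h5 : ∀ t m, k (ρ s⁻¹ t) = some m → m ≤ t)
    {β : ℕ} (hβ : β < 2) : Wins β {v | copy k v ∈ A} ↔ Wins β A := by
  have e : {v | copy (fun t => k (ρ s⁻¹ t)) v ∈ A} = {v | copy k v ∈ A} := by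
    ext v
    show copy (fun t => k (ρ s⁻¹ t)) v ∈ A ↔ copy k v ∈ A
    rw [copy_comp_right]
    exact hA _ _
  rcases (by omega : β = 0 ∨ β = 1) with rfl | rfl
  · constructor
    · exact wins_of_copy (by omega) (fun t ht => h2 t (by omega)) h3
    · intro h
      rw [← e]
      exact wins_copy (by omega) (fun t ht => h4 t ht) h5 h
  · constructor
    · intro h
      rw [← e] at h
      exact wins_of_copy (by omega) (fun t ht => h4 t (by omega)) h5 h
    · exact wins_copy (by omega) (fun t ht => h2 t ht) h3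

end PartTwo

/-- **Part two.** -/
theorem part_two [Countable Γ] (hΓ : ContainsFreeGroup Γ) :
    ∃ ρ : Γ →* Equiv.Perm ℕ, Free ρ ∧ EquivalentToTD (rearrange ρ) := by
  obtain ⟨f, hf⟩ := hΓ
  obtain ⟨ρ, k, g, h0, h1, h2, h3, h4, h5⟩ := exists_action f hf ![quarterE, thirdE, 1]
  refine ⟨ρ, h0, ⟨fun u => copy k (adaptiveJump u),
    (continuous_copy k).measurable.comp measurable_adaptiveJump, fun A hA => ?_⟩, ?_⟩
  · rw [invariant_iff] at hA
    have hc : CircleInvariant {v | copy k v ∈ A} := by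
      intro v
      constructor
      · show copy k (v ∘ quarter) ∈ A ↔ copy k v ∈ A
        have e : copy k (v ∘ quarter) = copy k v ∘ ρ (g 0) :=
          copy_comp (f := quarter) (h1 0 (by decide)) v
        rw [e]
        exact hA _ _
      · show copy k (v ∘ third) ∈ A ↔ copy k v ∈ A
        have e : copy k (v ∘ third) = copy k v ∘ ρ (g 1) :=
          copy_comp (f := third) (h1 1 (by decide)) v
        rw [e]
        exact hA _ _
    obtain ⟨⟨h6, h7, h8⟩, -⟩ := Pool.Agent.Y588.TC.main hc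
    have h9 : Wins 0 {v | copy k v ∈ A} ↔ Wins 0 A := two_frames hA h2 h3 h4 h5 (by omega)
    have h10 : Wins 1 {v | copy k v ∈ Aᶜ} ↔ Wins 1 Aᶜ :=
      two_frames (fun g x => not_congr (hA g x)) h2 h3 h4 h5 (by omega)
    exact ⟨h6, h7.trans h9, h8.trans h10⟩
  · obtain ⟨num, hnum⟩ := exists_surjective_nat Γ
    let fm : ℕ → ℕ → ℕ := fun i n => ρ (num i) n
    refine ⟨fun x => join (codeMaps fm) x, continuous_join _, fun A hA => ⟨?_, ?_, ?_⟩⟩
    · rw [invariant_iff]
      intro γ x
      obtain ⟨i, rfl⟩ := hnum γ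
      obtain ⟨j, hj⟩ := hnum (num i)⁻¹
      refine inv_join (f := fm) hA (i := i) (j := j) (fun n => ?_) x
      show ρ (num i) (ρ (num j) n) = n
      rw [hj, ← Equiv.Perm.mul_apply, ← map_mul, mul_inv_cancel, map_one]
      rfl
    · exact wins_join (β := 0) (by omega) hA _
    · exact wins_join (β := 1) (by omega) (compl_turing hA) _

/-- Two copies of a permutation. -/
def double : Equiv.Perm ℕ →* Equiv.Perm ℕ where
  toFun π := ⟨fun n => 2 * π (n / 2) + n % 2, fun n => 2 * π.symm (n / 2) + n % 2,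
    fun n => by
      show 2 * π.symm ((2 * π (n / 2) + n % 2) / 2) + (2 * π (n / 2) + n % 2) % 2 = n
      rw [show (2 * π (n / 2) + n % 2) / 2 = π (n / 2) by omega, π.symm_apply_apply]
      omega,
    fun n => by
      show 2 * π ((2 * π.symm (n / 2) + n % 2) / 2) + (2 * π.symm (n / 2) + n % 2) % 2 = n
      rw [show (2 * π.symm (n / 2) + n % 2) / 2 = π.symm (n / 2) by omega, π.apply_symm_apply]
      omega⟩
  map_one' := by
    refine Equiv.ext fun n => ?_
    show 2 * (n / 2) + n % 2 = n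
    omega
  map_mul' π π' := by
    refine Equiv.ext fun n => ?_
    show 2 * π (π' (n / 2)) + n % 2 =
      2 * π ((2 * π' (n / 2) + n % 2) / 2) + (2 * π' (n / 2) + n % 2) % 2
    rw [show (2 * π' (n / 2) + n % 2) / 2 = π' (n / 2) by omega]
    omega

theorem double_apply (π : Equiv.Perm ℕ) (n : ℕ) : double π n = 2 * π (n / 2) + n % 2 := rfl

theorem coordinateAction_rearrange (ρ : Γ →* Equiv.Perm ℕ) : CoordinateAction (rearrange ρ) :=
  fun g => ⟨ρ g⁻¹, fun _ => false, fun x q => by rw [rearrange_apply]; simp⟩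

/-- **Part three.** -/
theorem part_three [Countable Γ] :
    ∃ ρ : Γ →* Equiv.Perm ℕ, Free ρ ∧ GivesAD (rearrange ρ) := by
  obtain ⟨E⟩ : Nonempty (Γ × ℕ ≃ ℕ) := nonempty_equiv_of_countable
  refine ⟨double.comp (actHom E), fun g hg n h => ?_,
    givesAD_of_nonParadoxical (coordinateAction_rearrange _) ?_⟩
  · rw [MonoidHom.comp_apply, double_apply] at h
    exact actHom_free E hg (n / 2) (by omega)
  · rintro _ ⟨g, rfl⟩ _ ⟨g', rfl⟩ h h' r r' hc hc' b hb - -
    have key : ∀ (g : Γ) (h : Equiv.Perm ℕ) (r : ℕ → Bool),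
        IsCoord (rearrange (double.comp (actHom E)) g) h r → h '' side b = side b := by
      intro g h r hc
      have h1 : IsCoord (rearrange (double.comp (actHom E)) g)
          ((double.comp (actHom E)) g⁻¹) (fun _ => false) := fun x q => by
        rw [rearrange_apply]
        simp
      rw [hc.perm_eq h1]
      ext n
      constructor
      · rintro ⟨q, hq, rfl⟩
        have hq : q % 2 = b := hq
        show _ % 2 = b
        rw [MonoidHom.comp_apply, double_apply]
        omega
      · intro hn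
        have hn : n % 2 = b := hn
        refine ⟨(double.comp (actHom E)) g n, ?_, ?_⟩
        · show _ % 2 = b
          rw [MonoidHom.comp_apply, double_apply]
          omega
        · rw [← Equiv.Perm.mul_apply, ← map_mul, inv_mul_cancel, map_one]
          rfl
    rw [key g h r hc, key g' h' r' hc', Set.inter_self]
    exact infinite_side hb

theorem noFreeSemigroup_of_torsion (h : ∀ g : Γ, IsOfFinOrder g) : NoFreeSemigroup Γ := by
  intro a b hinj
  obtain ⟨n, hn, hn1⟩ := (isOfFinOrder_iff_pow_eq_one (x := a)).1 (h a)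
  have h1 : FreeMonoid.of true ^ n = (1 : FreeMonoid Bool) := by
    apply hinj
    rw [map_pow, map_one, FreeMonoid.lift_eval_of]
    exact hn1
  have h2 := congrArg FreeMonoid.length h1
  have h3 : ∀ m : ℕ, FreeMonoid.length (FreeMonoid.of true ^ m) = m := by
    intro m
    induction m with
    | zero => rfl
    | succ m ih => rw [pow_succ, FreeMonoid.length_mul, ih, FreeMonoid.length_of]
  rw [h3, FreeMonoid.length_one] at h2
  omega

theorem noFreeSemigroup_of_comm (h : ∀ a b : Γ, a * b = b * a) : NoFreeSemigroup Γ := by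
  intro a b hinj
  have h1 : FreeMonoid.of true * FreeMonoid.of false =
      FreeMonoid.of false * FreeMonoid.of true := by
    apply hinj
    rw [map_mul, map_mul]
    exact h _ _
  have h2 := congrArg FreeMonoid.toList h1
  rw [FreeMonoid.toList_of_mul, FreeMonoid.toList_of_mul] at h2
  have h3 := (List.cons.inj h2).1
  exact absurd h3 (by decide)

end Pool.Agent.Q215.FG
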