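import Mathlib

set_option autoImplicit false

namespace Pool.Agent.Q215.FG

open Function

section Sched

variable {Ω : Type*} (P : Ω → Bool) (c : Ω → Option ((ℕ → ℕ) × Ω)) (enc : Ω → ℕ)

/-- `ω` may get the number `L.length`, if the members of `L` have got the smaller numbers. -/
def Elig (L : List Ω) : Set Ω :=
  {ω | P ω = decide (L.length % 2 = 1) ∧ ω ∉ L ∧
    ∀ f ω', c ω = some (f, ω') → ∃ i, L[i]? = some ω' ∧ f i ≤ L.length}

/-- The eligible element with the least code. -/
noncomputable def next (H : ∀ L, (Elig P c L).Nonempty) (L : List Ω) : Ω :=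
  Function.argminOn enc (Elig P c L) (H L)

/-- The elements with the numbers below `t`. -/
noncomputable def picks (H : ∀ L, (Elig P c L).Nonempty) : ℕ → List Ω
  | 0 => []
  | t + 1 => picks H t ++ [next P c enc H (picks H t)]

theorem length_picks (H : ∀ L, (Elig P c L).Nonempty) (t : ℕ) : (picks P c enc H t).length = t := by
  induction t with
  | zero => rfl
  | succ t ih => rw [picks, List.length_append, ih]; rfl

/-- The element with the number `t`. -/
noncomputable def pick (H : ∀ L, (Elig P c L).Nonempty) (t : ℕ) : Ω :=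
  next P c enc H (picks P c enc H t)

theorem getElem_picks (H : ∀ L, (Elig P c L).Nonempty) (t i : ℕ) :
    (picks P c enc H t)[i]? = if i < t then some (pick P c enc H i) else none := by
  induction t with
  | zero => simp [picks]
  | succ t ih =>
    rw [picks, List.getElem?_append, length_picks]
    by_cases h : i < t
    · rw [if_pos h, ih, if_pos h, if_pos (by omega)]
    · rw [if_neg h]
      by_cases h' : i = t
      · subst h'
        rw [if_pos (by omega)]
        simp [pick]
      · rw [if_neg (by omega)]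
        rw [List.getElem?_eq_none (by simp; omega)]

theorem mem_picks (H : ∀ L, (Elig P c L).Nonempty) (t : ℕ) (ω : Ω) :
    ω ∈ picks P c enc H t ↔ ∃ i < t, pick P c enc H i = ω := by
  rw [List.mem_iff_getElem?]
  constructor
  · rintro ⟨i, hi⟩
    rw [getElem_picks] at hi
    split_ifs at hi with h
    exact ⟨i, h, Option.some.inj hi⟩
  · rintro ⟨i, h, hi⟩
    exact ⟨i, by rw [getElem_picks, if_pos h, hi]⟩

theorem pick_mem (H : ∀ L, (Elig P c L).Nonempty) (t : ℕ) :
    pick P c enc H t ∈ Elig P c (picks P c enc H t) :=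
  Function.argminOn_mem _ _ (H _)

theorem pick_inj (H : ∀ L, (Elig P c L).Nonempty) : Injective (pick P c enc H) := by
  intro i j hij
  rcases lt_trichotomy i j with h | h | h
  · exact absurd ((mem_picks P c enc H j _).2 ⟨i, h, hij⟩) (pick_mem P c enc H j).2.1
  · exact h
  · exact absurd ((mem_picks P c enc H i _).2 ⟨j, h, hij.symm⟩) (pick_mem P c enc H i).2.1

theorem pick_par (H : ∀ L, (Elig P c L).Nonempty) (t : ℕ) :
    P (pick P c enc H t) = decide (t % 2 = 1) := by
  have h := (pick_mem P c enc H t).1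
  rwa [length_picks] at h

theorem pick_bd (H : ∀ L, (Elig P c L).Nonempty) (t : ℕ) (f : ℕ → ℕ) (ω' : Ω)
    (h : c (pick P c enc H t) = some (f, ω')) :
    ∃ i, i < t ∧ pick P c enc H i = ω' ∧ f i ≤ t := by
  obtain ⟨i, h1, h2⟩ := (pick_mem P c enc H t).2.2 f ω' h
  rw [getElem_picks] at h1
  rw [length_picks] at h2
  split_ifs at h1 with h3
  exact ⟨i, h3, Option.some.inj h1, h2⟩

theorem pick_surj (henc : Injective enc) (H : ∀ L, (Elig P c L).Nonempty) (rank : Ω → ℕ)
    (hc : ∀ ω f ω', c ω = some (f, ω') → rank ω' < rank ω) (ω : Ω) :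
    ∃ t, pick P c enc H t = ω := by
  induction hr : rank ω using Nat.strong_induction_on generalizing ω with
  | _ r ih =>
    by_contra hno
    push Not at hno
    -- from some time on `ω` is eligible
    have h0 : ∃ T, ∀ t ≥ T, P ω = decide (t % 2 = 1) → ω ∈ Elig P c (picks P c enc H t) := by
      cases hcω : c ω with
      | none =>
        refine ⟨0, fun t _ hp => ⟨by rwa [length_picks], ?_, ?_⟩⟩
        · rw [mem_picks]
          rintro ⟨i, -, hi⟩
          exact hno i hi
        · intro f ω' h
          rw [hcω] at h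
          exact absurd h (by simp)
      | some v =>
        obtain ⟨f, ω'⟩ := v
        obtain ⟨t', ht'⟩ := ih (rank ω') (hr ▸ hc _ _ _ hcω) ω' rfl
        refine ⟨max (t' + 1) (f t'), fun t ht hp => ⟨by rwa [length_picks], ?_, ?_⟩⟩
        · rw [mem_picks]
          rintro ⟨i, -, hi⟩
          exact hno i hi
        · intro g ω'' h
          rw [hcω] at h
          obtain ⟨rfl, rfl⟩ := Prod.mk.inj (Option.some.inj h)
          refine ⟨t', ?_, ?_⟩
          · rw [getElem_picks, if_pos (by omega), ht']
          · rw [length_picks]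
            omega
    obtain ⟨T, hT⟩ := h0
    -- infinitely many times
    have h1 : ∀ n, ∃ t ≥ n, T ≤ t ∧ P ω = decide (t % 2 = 1) := by
      intro n
      cases hb : P ω with
      | false => exact ⟨2 * (n + T), by omega, by omega, by simp⟩
      | true => exact ⟨2 * (n + T) + 1, by omega, by omega, by simp⟩
    have h2 : {t | T ≤ t ∧ P ω = decide (t % 2 = 1)}.Infinite := by
      rw [Set.infinite_iff_exists_gt]
      intro n
      obtain ⟨t, h3, h4, h5⟩ := h1 (n + 1)
      exact ⟨t, ⟨h4, h5⟩, by omega⟩
    have h3 : Set.MapsTo (fun t => enc (pick P c enc H t)) {t | T ≤ t ∧ P ω = decide (t % 2 = 1)}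
        (Set.Iic (enc ω)) := by
      rintro t ⟨h4, h5⟩
      exact Function.argminOn_le enc _ (hT t h4 h5)
    exact Set.infinite_of_injOn_mapsTo ((henc.comp (pick_inj P c enc H)).injOn) h3 h2
      (Set.finite_Iic _)

/-- **Scheduling.** -/
theorem exists_schedule [Countable Ω] (rank : Ω → ℕ)
    (hc : ∀ ω f ω', c ω = some (f, ω') → rank ω' < rank ω)
    (hinf : ∀ b, {ω | P ω = b ∧ c ω = none}.Infinite) :
    ∃ ε : Ω ≃ ℕ, (∀ ω, P ω = decide (ε ω % 2 = 1)) ∧
      ∀ ω f ω', c ω = some (f, ω') → f (ε ω') ≤ ε ω := by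
  obtain ⟨enc, henc⟩ := exists_injective_nat Ω
  have H : ∀ L, (Elig P c L).Nonempty := by
    intro L
    obtain ⟨ω, h1, h2⟩ := (hinf (decide (L.length % 2 = 1))).exists_notMem_finset
      (L.finite_toSet.toFinset)
    refine ⟨ω, h1.1, by simpa using h2, fun f ω' h => ?_⟩
    rw [h1.2] at h
    exact absurd h (by simp)
  let p := Equiv.ofBijective (pick P c enc H)
    ⟨pick_inj P c enc H, pick_surj P c enc henc H rank hc⟩
  have hp : ∀ t, p t = pick P c enc H t := fun t => rfl
  refine ⟨p.symm, fun ω => ?_, fun ω f ω' h => ?_⟩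
  · conv_lhs => rw [← p.apply_symm_apply ω]
    rw [hp, pick_par P c enc H]
  · rw [← p.apply_symm_apply ω, hp] at h
    obtain ⟨i, -, h2, h3⟩ := pick_bd P c enc H _ f ω' h
    rw [← hp] at h2
    rw [← h2, p.symm_apply_apply]
    exact h3

end Sched

end Pool.Agent.Q215.FG
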