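import Pool.Agent.Q202.IDet.Main
import Pool.Agent.Q215.FG.Defs

set_option autoImplicit false

namespace Pool.Agent.Q215.FG

open Function Pool.Agent.Q202.IDet

section

variable (h : Bool → Equiv.Perm ℕ)

/-- The permutation of a word. -/
def pm : List Bool → Equiv.Perm ℕ
  | [] => 1
  | c :: w => pm w * h c

theorem pm_append (w : List Bool) (c : Bool) : pm h (w ++ [c]) = h c * pm h w := by
  induction w with
  | nil => simp [pm]
  | cons d w ih => rw [List.cons_append, pm, ih, pm, mul_assoc]

variable {E : Set ℕ}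

theorem pm_sub (h1 : ∀ c, (h c '' E \ E).Finite) (w : List Bool) :
    (pm h w '' E \ E).Finite ∧ ∀ c, (pm h (w ++ [c]) '' E \ h c '' E).Finite := by
  have key : ∀ w : List Bool, (pm h w '' E \ E).Finite → ∀ c,
      (pm h (w ++ [c]) '' E \ h c '' E).Finite := by
    intro w hw c
    refine (hw.image (h c)).subset ?_
    rintro _ ⟨⟨q, hq, rfl⟩, hq'⟩
    rw [pm_append] at hq' ⊢
    exact ⟨pm h w q, ⟨⟨q, hq, rfl⟩, fun h2 => hq' ⟨_, h2, rfl⟩⟩, rfl⟩
  have h2 : ∀ w : List Bool, (pm h w '' E \ E).Finite := by
    intro w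
    induction w using List.reverseRecOn with
    | nil => simp [pm]
    | append_singleton w c ih =>
      refine ((key w ih c).union (h1 c)).subset ?_
      rintro x ⟨h3, h4⟩
      by_cases h5 : x ∈ h c '' E
      · exact Or.inr ⟨h5, h4⟩
      · exact Or.inl ⟨h3, h5⟩
  exact ⟨h2 w, key w (h2 w)⟩

theorem pm_injective (hE : E.Infinite) (h1 : ∀ c, (h c '' E \ E).Finite)
    (h2 : (h true '' E ∩ h false '' E).Finite) : Injective (pm h) := by
  have h2' : ∀ c d, c ≠ d → (h c '' E ∩ h d '' E).Finite := by
    intro c d hcd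
    cases c <;> cases d
    · exact absurd rfl hcd
    · rwa [Set.inter_comm]
    · exact h2
    · exact absurd rfl hcd
  -- the empty word
  have h3 : ∀ (w : List Bool) (c : Bool), pm h (w ++ [c]) ≠ 1 := by
    intro w c hw
    have h4 := (pm_sub h h1 w).2 c
    rw [hw] at h4
    have h5 : (h (!c) '' E).Finite := by
      refine (((h1 (!c)).union h4).union (h2' (!c) c (by cases c <;> simp))).subset ?_
      intro x hx
      by_cases h6 : x ∈ E
      · by_cases h7 : x ∈ h c '' E
        · exact Or.inr ⟨hx, h7⟩
        · exact Or.inl (Or.inr ⟨⟨x, h6, rfl⟩, h7⟩)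
      · exact Or.inl (Or.inl ⟨hx, h6⟩)
    exact (hE.image (h (!c)).injective.injOn) h5
  intro w
  induction w using List.reverseRecOn with
  | nil =>
    intro w' hw'
    rcases List.eq_nil_or_concat w' with h4 | ⟨u, c, rfl⟩
    · exact h4.symm
    · rw [List.concat_eq_append] at hw'
      exact absurd hw'.symm (h3 u c)
  | append_singleton w c ih =>
    intro w' hw'
    rcases List.eq_nil_or_concat w' with rfl | ⟨u, d, rfl⟩
    · exact absurd hw' (h3 w c)
    · by_cases hcd : c = d
      · subst hcd
        rw [List.concat_eq_append, pm_append, pm_append] at hw'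
        rw [ih (mul_left_cancel hw'), List.concat_eq_append]
      · exfalso
        rw [List.concat_eq_append] at hw'
        have h4 := (pm_sub h h1 w).2 c
        have h5 := (pm_sub h h1 u).2 d
        rw [← hw'] at h5
        refine (hE.image (pm h (w ++ [c])).injective.injOn) (((h4.union h5).union
          (h2' c d hcd)).subset ?_)
        intro x hx
        by_cases h6 : x ∈ h c '' E
        · by_cases h7 : x ∈ h d '' E
          · exact Or.inr ⟨h6, h7⟩
          · exact Or.inl (Or.inr ⟨hx, h7⟩)
        · exact Or.inl (Or.inl ⟨hx, h6⟩)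

end

theorem infinite_side {b : ℕ} (hb : b < 2) : (side b).Infinite := by
  refine Set.infinite_of_injective_forall_mem (f := fun n => 2 * n + b) (fun m n h => ?_)
    fun n => ?_
  · have h : 2 * m + b = 2 * n + b := h
    omega
  · show (2 * n + b) % 2 = b
    omega

theorem isCoord_one : IsCoord 1 1 fun _ => false := fun x q => by simp

/-- A group without free subsemigroups of rank two is not paradoxical. -/
theorem nonParadoxical_of_noFree {Γ : Type*} [Group Γ] (hΓ : NoFreeSemigroup Γ)
    (σ : Γ →* Equiv.Perm (ℕ → Bool)) : NonParadoxical σ.range := by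
  rintro _ ⟨g, rfl⟩ _ ⟨g', rfl⟩ h h' r r' hc hc' b hb hf hf'
  by_contra hinf
  rw [Set.not_infinite] at hinf
  let H : Bool → Equiv.Perm ℕ := fun c => if c then h else h'
  have hinj := pm_injective H (infinite_side hb) (by intro c; cases c; exacts [hf', hf]) hinf
  let G : Bool → Γ := fun c => if c then g else g'
  have hG : ∀ c, ∃ s, IsCoord (σ (G c)) (H c) s := by
    intro c
    cases c
    exacts [⟨r', hc'⟩, ⟨r, hc⟩]
  have hw : ∀ w : List Bool, ∃ s, IsCoord (σ ((w.map G).prod)) (pm H w) s := by
    intro w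
    induction w with
    | nil => exact ⟨_, by simpa [pm] using isCoord_one⟩
    | cons c w ih =>
      obtain ⟨s, hs⟩ := ih
      obtain ⟨t, ht⟩ := hG c
      rw [List.map_cons, List.prod_cons, map_mul]
      exact ⟨_, ht.mul hs⟩
  refine hΓ g g' fun w w' hww => ?_
  have h1 : ((FreeMonoid.toList w).map G).prod = ((FreeMonoid.toList w').map G).prod := by
    rw [FreeMonoid.lift_apply, FreeMonoid.lift_apply] at hww
    exact hww
  obtain ⟨s, hs⟩ := hw (FreeMonoid.toList w)
  obtain ⟨s', hs'⟩ := hw (FreeMonoid.toList w')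
  rw [← h1] at hs'
  exact FreeMonoid.toList.injective (hinj (hs.perm_eq hs'))

end Pool.Agent.Q215.FG
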