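import Pool.Agent.Q215.FG.Sched

set_option autoImplicit false

namespace Pool.Agent.Q215.FG

open Function FreeGroup

/-- Letters. -/
abbrev Let : Type := Fin 3 × Bool

section Words

variable (A : Fin 3 → Equiv.Perm ℕ)

/-- The permutation belonging to a letter. -/
def gen (x : Let) : Equiv.Perm ℕ := if x.2 then A x.1 else (A x.1)⁻¹

/-- Read the letters before the first letter `2`; if this is `(2, true)` then it is kept, if it is
`(2, false)` then it is removed. -/
def core : List Let → Option (Equiv.Perm ℕ × List Let)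
  | [] => none
  | x :: L => if x.1 = 2 then (if x.2 then some (1, x :: L) else some (1, L)) else
      (core L).map fun p => (gen A x * p.1, p.2)

theorem core_cons_of_ne {x : Let} (hx : x.1 ≠ 2) (L : List Let) :
    core A (x :: L) = (core A L).map fun p => (gen A x * p.1, p.2) := by
  rw [core, if_neg hx]

theorem gen_mul_not {x : Let} : gen A x * gen A (x.1, !x.2) = 1 := by
  obtain ⟨i, b⟩ := x
  cases b <;> simp [gen]

theorem core_reduce_cons {x : Let} (hx : x.1 ≠ 2) {L : List Let} (hL : reduce L = L) :
    core A (reduce (x :: L)) = (core A L).map fun p => (gen A x * p.1, p.2) := by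
  rw [reduce.cons, hL]
  cases L with
  | nil => simp [core, hx]
  | cons y L =>
    simp only
    split_ifs with h
    · have hy : y.1 ≠ 2 := by rw [← h.1]; exact hx
      rw [core_cons_of_ne A hy, Option.map_map]
      have e : x = (y.1, !y.2) := Prod.ext h.1 h.2
      have e2 : y = (x.1, !x.2) := by rw [e]; simp
      have h3 : gen A x * gen A y = 1 := by
        rw [e2]
        exact gen_mul_not A
      cases core A L with
      | none => rfl
      | some p => simp [← mul_assoc, h3]
    · rw [core_cons_of_ne A hx]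

theorem core_length {L w : List Let} {π : Equiv.Perm ℕ} (h : core A L = some (π, w)) :
    w.length ≤ L.length ∧ (w.length < L.length ∨ ∃ M, L = (2, true) :: M) := by
  induction L generalizing π with
  | nil => simp [core] at h
  | cons x L ih =>
    by_cases hx : x.1 = 2
    · rw [core, if_pos hx] at h
      split_ifs at h with h2
      · obtain ⟨-, rfl⟩ := Prod.mk.inj (Option.some.inj h)
        exact ⟨le_refl _, Or.inr ⟨L, by rw [← h2, ← hx]⟩⟩
      · obtain ⟨-, rfl⟩ := Prod.mk.inj (Option.some.inj h)
        simp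
    · rw [core_cons_of_ne A hx, Option.map_eq_some_iff] at h
      obtain ⟨p, h1, h2⟩ := h
      obtain ⟨-, rfl⟩ := Prod.mk.inj h2
      have := (ih (π := p.1) (by rw [h1])).1
      exact ⟨by simp; omega, Or.inl (by simp; omega)⟩

/-- Does the word start with `(2, true)`? -/
def Starts : List Let → Bool
  | [] => false
  | x :: _ => decide (x = (2, true))

/-- Remove the first letter if it is `(2, true)`. -/
def cut : List Let → List Let
  | [] => []
  | x :: L => if x = (2, true) then L else x :: L

theorem cut_of_not {L : List Let} (h : Starts L = false) : cut L = L := by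
  cases L with
  | nil => rfl
  | cons x L =>
    have : x ≠ (2, true) := by simpa [Starts] using h
    simp [cut, this]

theorem cut_of {L : List Let} (h : Starts L = true) : L = (2, true) :: cut L := by
  cases L with
  | nil => simp [Starts] at h
  | cons x L =>
    have : x = (2, true) := by simpa [Starts] using h
    simp [cut, this]

/-- The free group of rank three times the natural numbers. -/
abbrev Om : Type := FreeGroup (Fin 3) × ℕ

/-- The constraint. -/
def cst (ω : Om) : Option ((ℕ → ℕ) × Om) :=
  (core A (cut ω.1.toWord)).map fun p => (p.1, (mk p.2, ω.2))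

theorem cst_rank {ω ω' : Om} {f : ℕ → ℕ} (h : cst A ω = some (f, ω')) :
    ω'.1.norm < ω.1.norm := by
  rw [cst, Option.map_eq_some_iff] at h
  obtain ⟨⟨π, w⟩, h1, h2⟩ := h
  obtain ⟨-, rfl⟩ := Prod.mk.inj h2
  have h3 := core_length A h1
  refine lt_of_le_of_lt norm_mk_le ?_
  show w.length < ω.1.toWord.length
  cases h4 : Starts ω.1.toWord with
  | false =>
    rw [cut_of_not h4] at h3
    rcases h3.2 with h5 | ⟨M, h5⟩
    · exact h5
    · rw [h5] at h4
      simp [Starts] at h4
  | true =>
    have h5 := cut_of h4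
    have h6 : ω.1.toWord.length = (cut ω.1.toWord).length + 1 := by
      conv_lhs => rw [h5]
      simp
    omega

/-- The value of the copy. -/
def kval (ε : Om ≃ ℕ) (ω : Om) : Option ℕ :=
  (core A ω.1.toWord).map fun p => p.1 (ε (mk p.2, ω.2))

theorem kval_mul (ε : Om ≃ ℕ) {i : Fin 3} (hi : i ≠ 2) (h : FreeGroup (Fin 3)) (n : ℕ) :
    kval A ε (of i * h, n) = (kval A ε (h, n)).map (A i) := by
  have e : (of i * h).toWord = reduce ((i, true) :: h.toWord) := by
    rw [← toWord_mk]
    congr 1
    conv_lhs => rw [← mk_toWord (x := h)]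
    rfl
  rw [kval, kval]
  show Option.map _ (core A (of i * h).toWord) = _
  rw [e, core_reduce_cons A (x := (i, true)) hi (reduce_toWord h), Option.map_map, Option.map_map]
  congr 1

theorem kval_of_starts (ε : Om ≃ ℕ) {ω : Om} (h : Starts ω.1.toWord = true) :
    kval A ε ω = some (ε ω) := by
  have h5 := cut_of h
  rw [kval]
  have h6 : core A ω.1.toWord = some (1, ω.1.toWord) := by
    rw [h5]
    simp [core]
  rw [h6]
  simp [mk_toWord]

theorem toWord_inv_mul (h : FreeGroup (Fin 3)) : ((of 2)⁻¹ * h).toWord =
    if Starts h.toWord then cut h.toWord else (2, false) :: h.toWord := by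
  have e : ((of 2)⁻¹ * h).toWord = reduce ((2, false) :: h.toWord) := by
    rw [← toWord_mk]
    congr 1
    conv_lhs => rw [← mk_toWord (x := h)]
    rfl
  rw [e, reduce.cons, reduce_toWord]
  cases h2 : h.toWord with
  | nil => simp [Starts]
  | cons y L =>
    obtain ⟨j, b⟩ := y
    by_cases h3 : j = 2
    · subst h3
      cases b <;> simp [Starts, cut]
    · have h4 : ¬ ((2 : Fin 3) = j) := fun h => h3 h.symm
      simp [Starts, h3, h4]

theorem kval_inv_of_not (ε : Om ≃ ℕ) {h : FreeGroup (Fin 3)} {n : ℕ}
    (hs : Starts h.toWord = false) : kval A ε ((of 2)⁻¹ * h, n) = some (ε (h, n)) := by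
  rw [kval]
  show Option.map _ (core A ((of 2)⁻¹ * h).toWord) = _
  rw [toWord_inv_mul, hs]
  simp [core, mk_toWord]

theorem kval_inv_of (ε : Om ≃ ℕ) {h : FreeGroup (Fin 3)} {n : ℕ}
    (hs : Starts h.toWord = true) : kval A ε ((of 2)⁻¹ * h, n) =
      (core A (cut h.toWord)).map fun p => p.1 (ε (mk p.2, n)) := by
  rw [kval]
  show Option.map _ (core A ((of 2)⁻¹ * h).toWord) = _
  rw [toWord_inv_mul, hs]
  simp

/-- The numbering of `Om` and the copies. -/
theorem exists_frames : ∃ (ε : Om ≃ ℕ) (k : Om → Option ℕ),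
    (∀ i ≠ 2, ∀ h n, k (of i * h, n) = (k (h, n)).map (A i)) ∧
    (∀ ω, ε ω % 2 = 1 → k ω = some (ε ω)) ∧
    (∀ ω m, k ω = some m → m ≤ ε ω) ∧
    (∀ ω, ε ω % 2 = 0 → k ((of 2)⁻¹ * ω.1, ω.2) = some (ε ω)) ∧
    ∀ ω m, k ((of 2)⁻¹ * ω.1, ω.2) = some m → m ≤ ε ω := by
  obtain ⟨ε, h1, h2⟩ := exists_schedule (fun ω : Om => Starts ω.1.toWord) (cst A)
    (fun ω => ω.1.norm) (fun ω f ω' h => cst_rank A h) (by
      intro b
      have hinj : Injective fun n : ℕ => ((if b then of 2 else 1, n) : Om) := fun m n h =>
        (Prod.mk.inj h).2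
      refine (Set.infinite_range_of_injective hinj).mono ?_
      rintro _ ⟨n, rfl⟩
      cases b
      · simp [Starts, cst, core, cut]
      · simp [Starts, cst, core, cut])
  have odd_iff : ∀ ω : Om, ε ω % 2 = 1 ↔ Starts ω.1.toWord = true := fun ω => by
    rw [h1 ω, decide_eq_true_eq]
  have even_iff : ∀ ω : Om, ε ω % 2 = 0 ↔ Starts ω.1.toWord = false := fun ω => by
    have := odd_iff ω
    cases hs : Starts ω.1.toWord
    · rw [hs] at this
      simp only [Bool.false_eq_true, iff_false] at this
      simp only [iff_true]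
      omega
    · rw [hs] at this
      simp only [iff_true] at this
      simp only [Bool.true_eq_false, iff_false]
      omega
  refine ⟨ε, kval A ε, fun i hi h n => kval_mul A ε hi h n,
    fun ω hω => kval_of_starts A ε ((odd_iff ω).1 hω), fun ω m hm => ?_,
    fun ω hω => kval_inv_of_not A ε ((even_iff ω).1 hω), fun ω m hm => ?_⟩
  · cases hs : Starts ω.1.toWord with
    | true =>
      rw [kval_of_starts A ε hs] at hm
      exact le_of_eq (Option.some.inj hm).symm
    | false =>
      rw [kval, Option.map_eq_some_iff] at hm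
      obtain ⟨⟨π, w⟩, h3, rfl⟩ := hm
      refine h2 ω π (mk w, ω.2) ?_
      rw [cst, cut_of_not hs, h3]
      rfl
  · cases hs : Starts ω.1.toWord with
    | true =>
      rw [kval_inv_of A ε hs, Option.map_eq_some_iff] at hm
      obtain ⟨⟨π, w⟩, h3, rfl⟩ := hm
      refine h2 ω π (mk w, ω.2) ?_
      rw [cst, h3]
      rfl
    | false =>
      rw [kval_inv_of_not A ε hs] at hm
      exact le_of_eq (Option.some.inj hm).symm

end Words

end Pool.Agent.Q215.FG
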